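import Pool.Agent.Lib.MP_a47f92_an.L.Def

set_option autoImplicit false

/-! The mass of a form on an open subset of projective space. -/

namespace Pool.Agent.Lib.MP_a47f92_an.L

open MeasureTheory

variable {n p : ℕ}

/-- The trace of `φ` at `z`: the sum of its values on the complex frames
`e (J 0), i e (J 0), e (J 1), i e (J 1), …` made of coordinate vectors. -/
noncomputable def trc (φ : Fm n (2 * p)) (z : E n) : ℝ :=
  ∑ J : Fin p → Fin n, φ z (cx fun j => if h : j < p then ev (J ⟨j, h⟩) else 0)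

/-- The mass of `φ` on the cone `V`: the Lebesgue integral of its trace over the part of `V` in the
shell `5 / 4 ≤ ‖z‖ ≤ 3 / 2`. -/
noncomputable def mss (V : Set (E n)) (φ : Fm n (2 * p)) : ENNReal :=
  ∫⁻ z in {z ∈ V | 5 / 4 ≤ ‖z‖ ∧ ‖z‖ ≤ 3 / 2}, ENNReal.ofReal (trc φ z)

end Pool.Agent.Lib.MP_a47f92_an.L
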