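import Pool.Agent.Lib.MP_a47f92_an.G.BlkA

set_option autoImplicit false
set_option linter.unusedSectionVars false

namespace Pool.Agent.Lib.MP_a47f92_an

open MeasureTheory Filter Topology Set Complex Metric Function
open scoped ContDiff ComplexConjugate ComplexOrder Matrix ENNReal NNReal

/-! Summability of the local masses, for measures on frames. -/

variable {n d s : ℕ} {F : E n → E n} {U D K : Set (E n)} {τ : Measure (Fr n s)} {r : ℝ}

/-- A neighbourhood of the support of the push-forward is mapped into this support. -/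
theorem St.maps_nb (h : St d s F D K τ r) {S R : Measure (Fr n s)} (hS : IsCur S) (hR : IsCur R)
    (e : Eqv S (lam d s F 1 R)) {δ : ℝ} {C : ℝ≥0}
    (lb : ∀ g, PT g → rf (nb δ (Sp S)) g ≤ C * lp R g) :
    MapsTo F (interior (nb δ (Sp S)) \ {0}) (Sp S) := by
  rintro z ⟨hz, hz0⟩
  refine (mem_Sp_iff (h.hF.ne hz0)).2 fun O ho hc hO => pos_iff_ne_zero.2 fun h0 => ?_
  have hK := cc_compl ho hc
  have h1 : On S Oᶜ := (on_iff_wg hK.meas).2 (by rwa [compl_compl])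
  have h2 := e.symm.toOn (hR.toLam h.hF h.d1 s 1) hS hK h1
  have h3 := (on_iff_wg hK.meas).1 h2
  have hg : PT fun x : Fr n s => O.indicator (fun _ => (1 : ℝ)) x.1 * dens x :=
    (pt_dn pps_lg).indicator ho.measurableSet hc
  rw [compl_compl, wg_apply _ pps_lg ho.measurableSet] at h3
  replace h3 := (lp_lam R h.hF s 1 hg.meas).symm.trans h3
  rw [mul_eq_zero, ENNReal.ofReal_eq_zero] at h3
  have hd0 : (0 : ℝ) < d := by exact_mod_cast h.d1
  have h4 := h3.resolve_left (not_le.2 (by positivity))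
  have h5 := lb _ (hg.comp_fw h.hF h.d1)
  have ho' : IsOpen (F ⁻¹' O) := ho.preimage h.hF.contDiff.continuous
  have e1 : (fun x : Fr n s => O.indicator (fun _ => (1 : ℝ)) (fw F x).1 * dens (fw F x)) =
      fun x => (F ⁻¹' O).indicator (fun _ => (1 : ℝ)) x.1 * dens (fw F x) := rfl
  rw [iterate_one] at h4
  rw [h4, mul_zero, e1, rf_mul_indicator ho'.measurableSet] at h5
  have h6 := rf_dens_fw_pos h.hF h.d1 (lt_of_mass_pos h.cτ.cur (h.cτ.mass ▸ one_pos))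
    (isOpen_interior.inter ho') (O := interior (nb δ (Sp S)) ∩ F ⁻¹' O)
    (fun c hc' w hw => ⟨((cc_Sp S).nb δ).2.interior c hc' w hw.1, by
      rw [mem_preimage, h.hF.hom]
      exact hc _ (pow_ne_zero _ hc') _ hw.2⟩)
    ⟨z, ⟨hz, hO⟩, hz0⟩
  exact (h6.trans_le ((rf_mono (inter_subset_inter_left _ interior_subset)).trans h5)).false

/-- The telescoping sum. -/
theorem tele_sum (hF : IsLift d F) (hd : 1 ≤ d) {Y Ψ : Measure (Fr n (s + 1))} (hY : IsCur Y)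
    (hΨ : IsCur Ψ) (psi : ∀ q, Pots q → p1 Ψ q = p1 Y q - p1 (lam d s F 1 Y) q) :
    ∑' m : ℕ, lp (lam d s F m Ψ) dens ≤ ENNReal.ofReal (mass Y) := by
  have e : ∀ m, mass (lam d s F m Ψ) = mass (lam d s F m Y) - mass (lam d s F (m + 1) Y) := by
    intro m
    have h1 := psi _ (pots_lg.comp (hF.iterate m))
    rw [← lam_lam hF, mass, mass, mass, p1, p1, p1,
      hΨ.pr_lam hF hd s m measurable_const pots_lg, hY.pr_lam hF hd s m measurable_const pots_lg,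
      (hY.toLam hF hd s 1).pr_lam hF hd s m measurable_const pots_lg, ← mul_sub]
    exact congrArg _ h1
  refine ENNReal.tsum_le_of_sum_range_le fun N => ?_
  have h0 : mass (lam d s F 0 Y) = mass Y := by
    rw [mass, p1, hY.pr_lam hF hd s 0 measurable_const pots_lg]
    simp only [mul_zero, pow_zero, inv_one, one_mul, iterate_zero, id]
    rfl
  simp only [fun m => (hΨ.toLam hF hd s m).lp_dens]
  rw [← ENNReal.ofReal_sum_of_nonneg fun m _ => (hΨ.toLam hF hd s m).mass_nonneg]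
  refine ENNReal.ofReal_le_ofReal ?_
  simp only [e]
  rw [Finset.sum_range_sub' fun m => mass (lam d s F m Y), h0]
  exact sub_le_self _ (hY.toLam hF hd s N).mass_nonneg

theorem exists_sum (hd : 2 ≤ d) (hF : IsLift d F) (hU : Trap F U) (hD : Trap F D) (hDU : D ⊆ U)
    (hA : ¬ ∃ S : Measure (Fr n (s + 1)), InC (⋂ m, F^[m] '' U) S) (hτ : InC D τ)
    (ha : Attr d F D τ) : ∃ V Z : Set (E n), Trap F V ∧ V ⊆ D ∧ CC Z ∧ Z \ {0} ⊆ V ∧ On τ Z ∧
      ∑' m : ℕ, ENNReal.ofReal ((d : ℝ) ^ (s * m))⁻¹ *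
        rf V (fun x : Fr n (s + 1) => dens (fw F^[m] x)) < ⊤ := by
  obtain ⟨K, r, h⟩ := exists_st hd hF hU hD hDU hA hτ ha
  obtain ⟨κ⟩ : Nonempty (KM n) := exists_kn _ _
  obtain ⟨Y, φ₀, cY, c0, o0, dY0, hle, hfix⟩ := h.exists_Y κ
  have cl := c0.toLam hF h.d1 1
  have cφ := h.lo_cl1 κ c0
  have oφ := h.lo_on κ c0.cur o0
  have kφ : IsCont (Lo κ r d s F φ₀) := A_sm_cont κ h.r0 h.r1 cl.cur
  have cΨ := A_ho_cur κ h.r0 h.r1 cl.cur
  have dY : DDC Y (Lo κ r d s F φ₀) τ := fun a ha q hq => by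
    rw [hfix _ (hq.cons ha), h.ho_ddc κ a ha q hq, h.lo_ddc κ cY c0.cur h.cτ.cur dY0 a ha q hq]
    ring
  have e0 : Eqv φ₀ (Lo κ r d s F φ₀) := fun a ha q hq => by
    linarith [dY a ha q hq, dY0 a ha q hq]
  have e1 := e0.toLam c0.cur cφ.cur hF h.d1 s 1
  have psi : ∀ q, Pots q → p1 (Ho κ r (lam d s F 1 φ₀)) q = p1 Y q - p1 (lam d s F 1 Y) q :=
    fun q hq => by
      have h1 := A_H' κ h.r0 h.r1 (cY.toLam hF h.d1 s 1) cl.cur h.cτ.cur cl.closed h.cτ.closed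
        (h.ddc_lam cY c0.cur dY0 1) hq
      have h2 := hfix q hq
      unfold Lo at h2
      linarith
  obtain ⟨δ, δ0, -, ⟨C₁, lb1⟩, C₂, lb2⟩ := A_lb κ h.r0 h.r1 cl.cur
  have cZ := cc_Sp (lam d s F 1 φ₀)
  have mZ := h.maps cl.cur cφ.cur e1 δ0 lb1
  have mV := h.maps_nb cl.cur cφ.cur e1 lb1
  have onZ : ∀ i, 1 ≤ i → On (lam d s F i (Lo κ r d s F φ₀)) (Sp (lam d s F 1 φ₀)) := by
    intro i hi
    obtain ⟨i, rfl⟩ := Nat.exists_eq_add_of_le' hi
    rw [← lam_lam hF]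
    exact (e1.symm.toOn (cφ.cur.toLam hF h.d1 s 1) cl.cur cZ (on_Sp _)).toLam hF h.d1 s i cZ.meas
      (mZ.iterate i)
  have oτ := h.on_tau cφ oφ kφ cZ onZ
  have zD : Sp (lam d s F 1 φ₀) \ {0} ⊆ D := fun z hz =>
    h.sub ⟨h.sub_nb ((h.lam_on o0).Sp_subset h.cK hz), hz.2⟩
  have zV : Sp (lam d s F 1 φ₀) \ {0} ⊆ (interior (nb δ (Sp (lam d s F 1 φ₀))) \ {0}) ∩ D :=
    fun z hz => ⟨⟨nb_subset_interior δ0 ⟨subset_nb le_rfl hz.1, hz.2⟩, hz.2⟩, zD hz⟩
  refine ⟨(interior (nb δ (Sp (lam d s F 1 φ₀))) \ {0}) ∩ D, _,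
    ⟨(isOpen_interior.sdiff isClosed_singleton).inter hD.op, fun c hc z hz =>
      ⟨⟨(cZ.nb δ).2.interior c hc z hz.1.1, smul_ne_zero hc hz.1.2⟩, hD.cone c hc z hz.2⟩,
      fun z hz => zV ⟨closure_minimal ?_ cZ.1 hz.1, hz.2⟩⟩,
    inter_subset_right, cZ, zV, oτ, ?_⟩
  · rintro _ ⟨w, hw, rfl⟩
    exact mV hw.1
  refine lt_of_le_of_lt (b := C₂ * ENNReal.ofReal (mass Y)) ?_
    (ENNReal.mul_lt_top ENNReal.coe_lt_top ENNReal.ofReal_lt_top)
  refine le_trans ?_ (mul_le_mul' le_rfl (tele_sum hF h.d1 cY cΨ psi))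
  rw [← ENNReal.tsum_mul_left]
  refine ENNReal.tsum_le_tsum fun m => ?_
  have hg : PT (dens : Fr n (s + 1) → ℝ) := pt_dn pps_lg
  rw [lp_lam _ hF s m hg.meas, mul_left_comm]
  refine mul_le_mul' le_rfl (le_trans (rf_mono fun z hz => interior_subset hz.1.1) ?_)
  exact lb2 _ (hg.comp_fw (hF.iterate m) (Nat.one_le_pow _ _ h.d1))

end Pool.Agent.Lib.MP_a47f92_an
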