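import Pool.Agent.Lib.MP_a47f92_an.L.Fin
import Pool.Agent.Lib.MP_a47f92_an.M.Def
import Pool.Agent.Lib.MP_a47f92_an.M.Sum

set_option autoImplicit false

/-! Summability of the local masses, for currents. -/

namespace Pool.Agent.Lib.MP_a47f92_an.L

open MeasureTheory Filter Topology Set Complex
open scoped ContDiff ENNReal

variable {n p d : ℕ} {F : E n → E n}

theorem bw_low : ∃ c : ℝ, 0 < c ∧ ∀ w : E n, 5 / 4 ≤ ‖w‖ → ‖w‖ ≤ 3 / 2 → c ≤ bw w := by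
  refine ⟨expNegInvGlue (1 / 2) * expNegInvGlue 1, mul_pos (expNegInvGlue.pos_of_pos (by norm_num))
    (expNegInvGlue.pos_of_pos one_pos), fun w h1 h2 => ?_⟩
  exact mul_le_mul (expNegInvGlue.monotone (by nlinarith)) (expNegInvGlue.monotone (by nlinarith))
    (expNegInvGlue.nonneg _) (expNegInvGlue.nonneg _)

theorem trc_pull (hF : IsLift d F) {z : E n} (hz : z ≠ 0) :
    kap p * trc (pull F (fs p)) z = hat (fun x : Fr n p => dens (fw F x)) z := by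
  rw [trc, hat, Finset.mul_sum]
  refine Finset.sum_congr rfl fun J _ => ?_
  have h1 : (fw F (z, evs J)).1 ≠ 0 := hF.ne hz
  have h2 := (wqS n p _ pots_lg).2 (fw F (z, evs J)) h1
  rw [← fs_eq, ← fv_pull hF] at h2
  rw [dens, dn, if_neg h1]
  exact h2

theorem mss_le : ∃ C : ℝ≥0∞, C < ⊤ ∧ ∀ (d : ℕ) (F : E n → E n), IsLift d F → 1 ≤ d →
    ∀ V : Set (E n), IsOpen V →
      mss V (pull F (fs p)) ≤ C * rf V fun x : Fr n p => dens (fw F x) := by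
  obtain ⟨c, c0, hc⟩ := bw_low (n := n)
  have k0 := kap_pos p
  refine ⟨ENNReal.ofReal (c * kap p)⁻¹, ENNReal.ofReal_lt_top, fun d F hF hd V hV => ?_⟩
  have hm : MeasurableSet {z ∈ V | 5 / 4 ≤ ‖z‖ ∧ ‖z‖ ≤ 3 / 2} :=
    hV.measurableSet.inter ((measurableSet_le measurable_const measurable_norm).inter
      (measurableSet_le measurable_norm measurable_const))
  rw [mss, rf, ← lintegral_const_mul' _ _ ENNReal.ofReal_ne_top]
  refine le_trans (setLIntegral_mono' hm fun z hz => ?_) (lintegral_mono_set (sep_subset _ _))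
  have hz0 : z ≠ 0 := norm_pos_iff.1 (by linarith [hz.2.1])
  have hg : PT fun x : Fr n p => dens (fw F x) := (pt_dn pps_lg).comp_fw hF hd
  have h0 : 0 ≤ hat (fun x : Fr n p => dens (fw F x)) z :=
    Finset.sum_nonneg fun J _ => hg.nonneg _
  rw [← ENNReal.ofReal_mul (by positivity)]
  refine ENNReal.ofReal_le_ofReal ?_
  have h1 := mul_le_mul_of_nonneg_right (hc z hz.2.1 hz.2.2) h0
  rw [le_inv_mul_iff₀ (by positivity), mul_assoc, trc_pull hF hz0]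
  exact h1

theorem Rp2.kill {σ : Cu n p} {τ : Cur n (2 * p)} (h : Rp2 σ τ) {T : Measure (Fr n p)}
    (hT : IsCur T) (e : ∀ a, LH 0 a → ∀ q, Pots q → pr T a q = prR σ a q) {Z : Set (E n)}
    (ho : On T Z) {φ : Fm n (2 * p)} (hφ : Basic φ) (hd : Disjoint (tsupport φ) (Z \ {0})) :
    τ φ = 0 := by
  obtain ⟨ι, _, q, lam, s1, -, s3⟩ := spanS n p
  obtain ⟨s4, s5⟩ := s3 φ hφ
  have e1 : ∀ S : Measure (Fr n p), IsCur S → kap p * ∫ x, fv φ x ∂S =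
      ∑ i, pr S (fun z => lam i z (φ z)) (q i) := fun S hS => by
    rw [← integral_const_mul, integral_congr_ae (hS.ne.mono fun x hx => s5 x hx),
      integral_finsetSum _ fun i _ => (hS.int_mul_dn (s4 i).bm (s1 i)).congr
        (hS.ne.mono fun x hx => by simp only [dn, if_neg hx, dc])]
    rfl
  rw [h.eq φ hφ, mul_sub, e1 _ h.c1, e1 _ h.c2, ← Finset.sum_sub_distrib]
  refine Finset.sum_eq_zero fun i _ => (e _ (s4 i) _ (s1 i)).symm.trans
    (ho.pr_zero hT (fun z hz h0 => ?_) (s1 i))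
  rw [image_eq_zero_of_notMem_tsupport fun h1 => disjoint_left.1 hd h1 ⟨hz, h0⟩, map_zero]

theorem sum_main (k s d : ℕ) (hd : 2 ≤ d) (F : E (k + 1) → E (k + 1)) (hF : IsLift d F)
    (U D : Set (E (k + 1))) (hU : Trap F U) (hD : Trap F D) (hDU : D ⊆ U)
    (hA : ¬ ∃ S : Cur (k + 1) (2 * (s + 1)), Pos S ∧ Cl (⋂ m, F^[m] '' U) S)
    (τ : Cur (k + 1) (2 * s)) (h0 : Pos τ ∨ Ord0 τ) (hτ : Cl D τ) (ha : Attr d F D τ) :
    ∃ V, Trap F V ∧ V ⊆ D ∧ Cl V τ ∧ Attr d F V τ ∧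
      ∑' m : ℕ, mss V (pull F^[m] (fs (s + 1))) / (d : ℝ≥0∞) ^ (s * m) < ⊤ := by
  have hR := repS wqS spanS
  have hd1 : 1 ≤ d := le_trans one_le_two hd
  obtain ⟨K, k1, k2, k3, k4⟩ := hτ.supp
  obtain ⟨σ, c1, c2, c3, c4⟩ := hR _ s D K τ hD.op hD.cone k1 k2 k3
    (h0.elim (Pos.ord0 wqS) id) k4
  have h : Rp2 σ τ := ⟨c1, c2, c4⟩
  have hσ : InR D σ := ⟨c1, c2, h.closed spanS extS convS hτ.closed, by
    rw [← h.W wqS (lh_const 1) pots_lg, ← fs_one, hτ.mass], c3⟩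
  have hA' : ¬ ∃ S : Measure (Fr (k + 1) (s + 1)), InC (⋂ m, F^[m] '' U) S := fun ⟨S, hS'⟩ => by
    obtain ⟨T, hT⟩ := exists_rp spanS hS'.cur
    exact hA ⟨T, hT.pos hS'.cur, hT.cl wqS extS hardS hS'⟩
  have ha' : AttrR d F D σ := fun S h1 h2 a h3 q h4 => by
    obtain ⟨T, hT⟩ := exists_rp spanS h1.cur
    have h5 := ha T (hT.pos h1.cur) (hT.cl wqS extS hardS h1) (hT.cont spanS h1.cur h2) _
      ((wqS _ s q h4).1.fsmul h3)
    rw [h.W wqS h3 h4] at h5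
    simpa only [fun m => hT.pull wqS h1.cur (hF.iterate m) (Nat.one_le_pow _ _ hd1) h3 h4] using h5
  obtain ⟨T, hT, e⟩ := hσ.exists_rep ha' hd hF hD
  have ha'' : MP_a47f92_an.Attr d F D T := fun S h1 h2 a h3 q h4 => by
    rw [e a h3 q h4]
    exact ha' S h1 h2 a h3 q h4
  obtain ⟨V, Z, v1, v2, z1, z2, z3, hs⟩ := exists_sum hd hF hU hD hDU hA' hT ha''
  obtain ⟨C, hC, hm⟩ := mss_le (n := k + 1) (p := s + 1)
  refine ⟨V, v1, v2, ⟨hτ.closed, hτ.mass, Z, z1.1, z1.2, z2, fun φ hφ hd' =>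
    h.kill hT.cur e z3 hφ hd'⟩, fun R r1 r2 => ha R r1 ⟨r2.closed, r2.mass,
      r2.supp.imp fun K hK => ⟨hK.1, hK.2.1, hK.2.2.1.trans v2, hK.2.2.2⟩⟩,
    lt_of_le_of_lt ?_ (ENNReal.mul_lt_top hC hs)⟩
  rw [← ENNReal.tsum_mul_left]
  refine ENNReal.tsum_le_tsum fun m => ?_
  have hd0 : (0 : ℝ) < d := by exact_mod_cast hd1
  rw [ENNReal.ofReal_inv_of_pos (by positivity), ENNReal.ofReal_pow hd0.le, ENNReal.ofReal_natCast,
    mul_left_comm, ENNReal.div_eq_inv_mul]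
  exact mul_le_mul' le_rfl (hm _ _ (hF.iterate m) (Nat.one_le_pow _ _ hd1) V v1.op)

end Pool.Agent.Lib.MP_a47f92_an.L
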